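import Pool.Agent.K7.H47.DM.Stm3

set_option autoImplicit false

namespace Pool.Agent.K7.H16.DM2

open Pool.Agent.K7.H47.DM

theorem pell : StPell3 := by
  intro A B C hA hC hAB hsq hD
  obtain ⟨x, y, hxy, hy⟩ := Pell.exists_of_not_isSquare hD hsq
  obtain ⟨r, hr⟩ : ∃ r : ℤ, r = |x| := ⟨_, rfl⟩
  obtain ⟨s, hs⟩ : ∃ s : ℤ, s = |y| := ⟨_, rfl⟩
  have hs0 : 0 < s := by rw [hs]; exact abs_pos.2 hy
  have hr0 : 0 ≤ r := by rw [hr]; exact abs_nonneg x
  have hP : r ^ 2 - (B ^ 2 - 4 * A * C) * s ^ 2 = 1 := by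
    rw [hr, hs, sq_abs, sq_abs]
    exact hxy
  have hDs : 0 < (B ^ 2 - 4 * A * C) * s ^ 2 := by positivity
  have hr1 : 0 < r := by
    rcases hr0.eq_or_lt with h | h
    · rw [← h] at hP
      linarith
    · exact h
  have hb0 : 1 ≤ r + (2 * C - B) * s := by
    rcases le_or_gt B (2 * C) with h | h
    · have : 0 ≤ (2 * C - B) * s := mul_nonneg (by linarith) hs0.le
      linarith
    · -- here `A + C ≤ B`
      have h1 : A + C ≤ B := by
        by_contra h2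
        push Not at h2
        linarith
      have h2 : (B - 2 * C) ^ 2 ≤ B ^ 2 - 4 * A * C := by nlinarith
      have h3 : ((B - 2 * C) * s) ^ 2 < r ^ 2 := by
        have h4 : (B - 2 * C) ^ 2 * s ^ 2 ≤ (B ^ 2 - 4 * A * C) * s ^ 2 :=
          mul_le_mul_of_nonneg_right h2 (by positivity)
        rw [mul_pow]
        linarith
      have h5 := abs_lt_of_sq_lt_sq h3 hr0
      have h6 := (abs_lt.1 h5).2
      linarith
  obtain ⟨b, hb⟩ : ∃ b : ℤ, b = 2 * A * s * (r + (2 * C - B) * s) := ⟨_, rfl⟩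
  have hb2 : 2 ≤ b := by
    have h1 : 1 ≤ A * s := by
      have := mul_pos hA hs0
      linarith
    rw [hb]
    nlinarith
  obtain ⟨w, hw⟩ : ∃ w : ℤ, w = 2 * (B - 2 * A) * r * s + 1 + 2 * (B ^ 2 - 4 * A * C) * s ^ 2 :=
    ⟨_, rfl⟩
  have hw1 : 1 ≤ w := by
    have h1 : 0 ≤ 2 * (B - 2 * A) * r * s :=
      mul_nonneg (mul_nonneg (by linarith) hr0) hs0.le
    rw [hw]
    linarith
  obtain ⟨v, hv⟩ : ∃ v : ℤ, v = 2 * s * ((B - 2 * A) * s + r) := ⟨_, rfl⟩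
  have hv1 : 1 ≤ v := by
    have h1 : 0 ≤ (B - 2 * A) * s := mul_nonneg (by linarith) hs0.le
    have h2 : 0 < 2 * s * ((B - 2 * A) * s + r) := by positivity
    rw [hv]
    linarith
  have hc2 : 2 ≤ 1 + C * v := by nlinarith
  obtain ⟨b', hb'⟩ := Int.eq_ofNat_of_zero_le (show 0 ≤ b by linarith)
  obtain ⟨a', ha'⟩ := Int.eq_ofNat_of_zero_le (show 0 ≤ b + w by linarith)
  obtain ⟨c', hc'⟩ := Int.eq_ofNat_of_zero_le (show 0 ≤ 1 + C * v by linarith)
  refine ⟨a', b', c', by omega, by omega, by omega, by omega, ?_, ?_⟩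
  · rw [← ha', ← hb', ← hc', hb, hw, hv]
    ring
  · rw [← ha', ← hb', ← hc', hb, hw, hv]
    linear_combination (-4 * A * C * s ^ 2 * (A - B + C)) * hP

end Pool.Agent.K7.H16.DM2
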