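import Pool.Agent.K7.H22.EV.Stm

set_option autoImplicit false
set_option linter.unusedSectionVars false

/-!
# Project EV, job L4: an even number `n` of symbols, `n + 2` positions, strength four: the code can
be extended by one position, and `6 ∣ n (n + 1)`.
-/

open Finset

namespace Pool.Agent.K7.H16.EVL4

open Pool.Agent.K7.H22.EV

variable {ι S W : Type} [Fintype ι] [Fintype S] [Fintype W] {f : W → ι → S}

theorem mem_ag (u w : W) (i : ι) : i ∈ ag f u w ↔ f u i = f w i := by
  simp [ag]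

theorem ag_comm (u w : W) : ag f u w = ag f w u := by
  ext i; rw [mem_ag, mem_ag]; exact eq_comm

theorem un4 (hT : T 4 f) {u w : W} (h : 4 ≤ (ag f u w).card) : u = w := by
  obtain ⟨A, hA, hc⟩ := exists_subset_card_eq h
  obtain ⟨x, -, hx⟩ := hT A hc (f u)
  rw [hx u (fun i _ => rfl), hx w (fun i hi => ((mem_ag u w i).1 (hA hi)).symm)]

theorem un4' (hT : T 4 f) {u w : W} {i1 i2 i3 i4 : ι} (h12 : i1 ≠ i2) (h13 : i1 ≠ i3)
    (h14 : i1 ≠ i4) (h23 : i2 ≠ i3) (h24 : i2 ≠ i4) (h34 : i3 ≠ i4)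
    (e1 : f u i1 = f w i1) (e2 : f u i2 = f w i2) (e3 : f u i3 = f w i3) (e4 : f u i4 = f w i4) :
    u = w := by
  classical
  apply un4 hT
  have : ({i1, i2, i3, i4} : Finset ι) ⊆ ag f u w := by
    intro i hi
    simp only [mem_insert, mem_singleton] at hi
    rw [mem_ag]
    rcases hi with rfl | rfl | rfl | rfl <;> assumption
  calc 4 = ({i1, i2, i3, i4} : Finset ι).card := by simp [*]
    _ ≤ _ := card_le_card this

theorem ex4 (hT : T 4 f) {i1 i2 i3 i4 : ι} (h12 : i1 ≠ i2) (h13 : i1 ≠ i3)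
    (h14 : i1 ≠ i4) (h23 : i2 ≠ i3) (h24 : i2 ≠ i4) (h34 : i3 ≠ i4) (s1 s2 s3 s4 : S) :
    ∃ w, f w i1 = s1 ∧ f w i2 = s2 ∧ f w i3 = s3 ∧ f w i4 = s4 := by
  classical
  obtain ⟨w, hw, -⟩ := hT {i1, i2, i3, i4} (by simp [*])
    (fun i => if i = i1 then s1 else if i = i2 then s2 else if i = i3 then s3 else s4)
  refine ⟨w, ?_, ?_, ?_, ?_⟩
  · have := hw i1 (by simp); simpa using this
  · have := hw i2 (by simp); simpa [h12.symm] using this
  · have := hw i3 (by simp); simpa [h13.symm, h23.symm] using this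
  · have := hw i4 (by simp); simpa [h14.symm, h24.symm, h34.symm] using this

/-- a position outside of a set of at most three positions -/
theorem ex_pos (hc : Fintype.card ι = Fintype.card S + 2) (h2 : 2 ≤ Fintype.card S)
    (A : Finset ι) (hA : A.card ≤ 3) : ∃ k, k ∉ A := by
  classical
  by_contra h
  push Not at h
  have : A = univ := eq_univ_iff_forall.2 h
  rw [this, card_univ] at hA
  omega

/-- the derived code at a point -/
theorem tr (h3 : StL3) (hT : T 4 f) (hc : Fintype.card ι = Fintype.card S + 2)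
    (h2 : 2 ≤ Fintype.card S) (he : Even (Fintype.card S)) (q : ι) {u v w : W}
    (huv : f u q = f v q) (hvw : f w q = f v q) (hne : u ≠ w) (h1 : (ag f u v).card = 2)
    (h1' : (ag f v w).card = 2) : (ag f u w).card = 2 := by
  classical
  set b := f v q with hb
  let f' : {x : W // f x q = b} → {i : ι // i ≠ q} → S := fun x i => f x.1 i.1
  have hT' : T 3 f' := by
    intro A hA y
    let A' : Finset ι := insert q (A.map (Function.Embedding.subtype _))
    have hq : q ∉ A.map (Function.Embedding.subtype (fun i => i ≠ q)) := by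
      simp
    have hA' : A'.card = 4 := by
      rw [card_insert_of_notMem hq, card_map, hA]
    obtain ⟨x, hx, hu⟩ := hT A' hA' (fun i => if h : i ≠ q then y ⟨i, h⟩ else b)
    have hxq : f x q = b := by
      have := hx q (mem_insert_self _ _)
      simpa using this
    refine ⟨⟨x, hxq⟩, ?_, ?_⟩
    · intro i hi
      have := hx i.1 (mem_insert_of_mem (mem_map_of_mem _ hi))
      simpa [i.2] using this
    · rintro ⟨z, hz⟩ hz'
      apply Subtype.ext
      apply hu
      intro i hi
      rcases mem_insert.1 hi with rfl | hi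
      · simpa using hz
      · obtain ⟨j, hj, rfl⟩ := mem_map.1 hi
        have := hz' j hj
        simpa [j.2] using this
  have hcard : Fintype.card {i : ι // i ≠ q} = Fintype.card S + 1 := by
    rw [Fintype.card_subtype_compl, Fintype.card_subtype_eq]
    omega
  have hag : ∀ x y : {x : W // f x q = b}, (ag f x.1 y.1).card = (ag f' x y).card + 1 := by
    intro x y
    have : ag f x.1 y.1 = insert q ((ag f' x y).map (Function.Embedding.subtype _)) := by
      ext i
      rw [mem_ag, mem_insert, mem_map]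
      constructor
      · intro h
        by_cases hi : i = q
        · exact Or.inl hi
        · exact Or.inr ⟨⟨i, hi⟩, (mem_ag (f := f') _ _ _).2 h, rfl⟩
      · rintro (rfl | ⟨j, hj, rfl⟩)
        · rw [x.2, y.2]
        · exact (mem_ag (f := f') _ _ _).1 hj
    rw [this, card_insert_of_notMem (by simp), card_map]
  have key := h3 _ _ _ f' hT' hcard h2 he ⟨u, huv⟩ ⟨v, rfl⟩ ⟨w, hvw⟩
    (by intro h; exact hne (congrArg Subtype.val h))
    (by have := hag ⟨u, huv⟩ ⟨v, rfl⟩; simp only at this; omega)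
    (by have := hag ⟨v, rfl⟩ ⟨w, hvw⟩; simp only at this; omega)
  have := hag ⟨u, huv⟩ ⟨w, hvw⟩
  simp only at this
  omega

/-- (E1) -/
theorem e1 (hT : T 4 f) (hc : Fintype.card ι = Fintype.card S + 2)
    (h2 : 2 ≤ Fintype.card S) (u : W) {j l m : ι} (hjl : j ≠ l) (hjm : j ≠ m) (hlm : l ≠ m)
    {b : S} (hb : f u j ≠ b) : ∃ x, f x j = b ∧ ∀ i, f x i = f u i ↔ i = l ∨ i = m := by
  classical
  obtain ⟨k, hk⟩ := ex_pos hc h2 {j, l, m} card_le_three
  simp only [mem_insert, mem_singleton, not_or] at hk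
  obtain ⟨hkj, hkl, hkm⟩ := hk
  have hz : ∀ r : {r : ι // ¬ (r = j ∨ r = l ∨ r = m)}, ∃ z, f z j = b ∧ f z l = f u l ∧
      f z m = f u m ∧ f z r.1 = f u r.1 := by
    rintro ⟨r, hr⟩
    simp only [not_or] at hr
    exact ex4 hT hjl hjm (Ne.symm hr.1) hlm (Ne.symm hr.2.1) (Ne.symm hr.2.2) _ _ _ _
  choose z hz1 hz2 hz3 hz4 using hz
  have hns : ¬ Function.Surjective (fun r => f (z r) k) := by
    intro hs
    have h5 := Fintype.card_le_of_surjective _ hs
    have h6 : Fintype.card {r : ι // ¬ (r = j ∨ r = l ∨ r = m)} = Fintype.card ι - 3 := by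
      rw [Fintype.card_subtype_compl]
      congr 1
      rw [Fintype.card_subtype]
      have : (univ.filter fun r : ι => r = j ∨ r = l ∨ r = m) = {j, l, m} := by
        ext i; simp
      rw [this]
      simp [*]
    omega
  unfold Function.Surjective at hns
  push Not at hns
  obtain ⟨s, hs⟩ := hns
  obtain ⟨x, hx1, hx2, hx3, hx4⟩ := ex4 hT hjl hjm (Ne.symm hkj) hlm (Ne.symm hkl) (Ne.symm hkm)
    b (f u l) (f u m) s
  refine ⟨x, hx1, fun i => ⟨fun hi => ?_, ?_⟩⟩
  · by_contra hn
    push Not at hn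
    have hij : i ≠ j := by
      rintro rfl
      exact hb (by rw [← hi, hx1])
    have hr : ¬ (i = j ∨ i = l ∨ i = m) := by
      simp only [not_or]; exact ⟨hij, hn.1, hn.2⟩
    apply hs ⟨i, hr⟩
    have : x = z ⟨i, hr⟩ := un4' hT hjl hjm (Ne.symm hij) hlm (Ne.symm hn.1) (Ne.symm hn.2)
      (by rw [hx1, hz1]) (by rw [hx2, hz2]) (by rw [hx3, hz3]) (by rw [hi, hz4])
    rw [← this, hx4]
  · rintro (rfl | rfl) <;> assumption

theorem card_of_iff {u x : W} {l m : ι} (hlm : l ≠ m) (h : ∀ i, f x i = f u i ↔ i = l ∨ i = m) :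
    (ag f x u).card = 2 := by
  classical
  have : ag f x u = {l, m} := by
    ext i; rw [mem_ag, h]; simp
  rw [this, card_pair hlm]

theorem iff_of_card {u x : W} (h : (ag f x u).card = 2) :
    ∃ l m : ι, l ≠ m ∧ ∀ i, f x i = f u i ↔ i = l ∨ i = m := by
  classical
  obtain ⟨l, m, hlm, hA⟩ := card_eq_two.1 h
  refine ⟨l, m, hlm, fun i => ?_⟩
  rw [← mem_ag, hA]; simp

/-- the relation -/
def R (f : W → ι → S) (x y : W) : Prop := x = y ∨ (ag f x y).card = 2

theorem R.symm {x y : W} (h : R f x y) : R f y x := by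
  rcases h with h | h
  · exact Or.inl h.symm
  · exact Or.inr (by rw [ag_comm]; exact h)

/-- transitivity among words through a common point -/
theorem R.trans (h3 : StL3) (hT : T 4 f) (hc : Fintype.card ι = Fintype.card S + 2)
    (h2 : 2 ≤ Fintype.card S) (he : Even (Fintype.card S)) (q : ι) {u v w : W}
    (huv : f u q = f v q) (hvw : f w q = f v q) (h1 : R f u v) (h1' : R f v w) : R f u w := by
  by_cases hne : u = w
  · exact Or.inl hne
  rcases h1 with rfl | h1
  · exact h1'
  rcases h1' with rfl | h1'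
  · exact Or.inr h1
  exact Or.inr (tr h3 hT hc h2 he q huv hvw hne h1 h1')

section point

variable (h3 : StL3) (hT : T 4 f) (hc : Fintype.card ι = Fintype.card S + 2)
  (h2 : 2 ≤ Fintype.card S) (he : Even (Fintype.card S)) {p : ι} {a : S}

include h3 hT hc h2 he

/-- words of the point meeting `u` in two positions, with a common position -/
theorem share {u x y : W} (hx : R f x u) (hy : R f y u) (q : ι)
    (hxq : f x q = f u q) (hyq : f y q = f u q) : R f x y :=
  R.trans h3 hT hc h2 he q hxq hyq hx hy.symm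

/-- (E2) -/
theorem e2 {u x y : W} (hu : f u p ≠ a) (hxp : f x p = a) (hyp : f y p = a)
    (hx : (ag f x u).card = 2) (hy : (ag f y u).card = 2) : R f x y := by
  obtain ⟨l, m, hlm, hX⟩ := iff_of_card hx
  obtain ⟨l', m', hlm', hY⟩ := iff_of_card hy
  have hlp : l ≠ p := by
    rintro rfl
    exact hu (by rw [← (hX l).2 (Or.inl rfl), hxp])
  have hlp' : l' ≠ p := by
    rintro rfl
    exact hu (by rw [← (hY l').2 (Or.inl rfl), hyp])
  by_cases hll : l = l'
  · subst hll
    exact share h3 hT hc h2 he (Or.inr hx) (Or.inr hy) l ((hX l).2 (Or.inl rfl))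
      ((hY l).2 (Or.inl rfl))
  · obtain ⟨z, hzp, hZ⟩ := e1 hT hc h2 u (Ne.symm hlp) (Ne.symm hlp') hll hu
    have hz := card_of_iff hll hZ
    have h1 : R f x z := share h3 hT hc h2 he (Or.inr hx) (Or.inr hz) l
      ((hX l).2 (Or.inl rfl)) ((hZ l).2 (Or.inl rfl))
    have h1' : R f z y := share h3 hT hc h2 he (Or.inr hz) (Or.inr hy) l'
      ((hZ l').2 (Or.inr rfl)) ((hY l').2 (Or.inl rfl))
    exact R.trans h3 hT hc h2 he p (by rw [hxp, hzp]) (by rw [hyp, hzp]) h1 h1'

omit h3 he in
theorem move {x : W} (hxp : f x p = a) {i j : ι} (hi : i ≠ p) (hj : j ≠ p) (hij : i ≠ j) (b : S) :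
    ∃ y, f y p = a ∧ R f y x ∧ f y i = b ∧ f y j = f x j := by
  by_cases hb : f x i = b
  · exact ⟨x, hxp, Or.inl rfl, hb, rfl⟩
  · obtain ⟨y, hy, hY⟩ := e1 hT hc h2 x hi hij (Ne.symm hj) hb
    exact ⟨y, by rw [(hY p).2 (Or.inl rfl), hxp], Or.inr (card_of_iff (Ne.symm hj) hY), hy,
      (hY j).2 (Or.inr rfl)⟩

/-- (E3), existence -/
theorem e3 {x : W} (hxp : f x p = a) {i j : ι} (hi : i ≠ p) (hj : j ≠ p) (hij : i ≠ j) (b c : S) :
    ∃ y, f y p = a ∧ R f y x ∧ f y i = b ∧ f y j = c := by
  obtain ⟨y, hyp, hyx, hyi, -⟩ := move hT hc h2 hxp hi hj hij b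
  obtain ⟨z, hzp, hzy, hzj, hzi⟩ := move hT hc h2 hyp hj hi hij.symm c
  exact ⟨z, hzp, R.trans h3 hT hc h2 he p (by rw [hzp, hyp]) (by rw [hxp, hyp]) hzy hyx,
    by rw [hzi, hyi], hzj⟩

omit h3 hT hc h2 he in
/-- (E3), uniqueness -/
theorem e3u {x y : W} (hxp : f x p = f y p) (hxy : R f x y) {i j : ι} (hi : i ≠ p) (hj : j ≠ p)
    (hij : i ≠ j) (h1 : f x i = f y i) (h1' : f x j = f y j) : x = y := by
  classical
  rcases hxy with h | h
  · exact h
  · exfalso
    have : ({p, i, j} : Finset ι) ⊆ ag f x y := by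
      intro k hk
      simp only [mem_insert, mem_singleton] at hk
      rw [mem_ag]
      rcases hk with rfl | rfl | rfl <;> assumption
    have h3 := card_le_card this
    rw [h, card_insert_of_notMem (by simp [hi.symm, hj.symm]), card_pair hij] at h3
    omega

/-- (E4) -/
theorem e4 {u x z : W} (hu : f u p ≠ a) (hxp : f x p = a) (hzp : f z p = a)
    (hz : (ag f z u).card = 2) (hxz : R f x z) (h0 : (ag f x u).card ≠ 0) :
    (ag f x u).card = 2 := by
  classical
  obtain ⟨i, hi⟩ := card_pos.1 (Nat.pos_of_ne_zero h0)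
  rw [mem_ag] at hi
  have hip : i ≠ p := by
    rintro rfl
    exact hu (by rw [← hi, hxp])
  obtain ⟨k, hk⟩ := ex_pos hc h2 {p, i} (le_trans card_le_two (by norm_num))
  simp only [mem_insert, mem_singleton, not_or] at hk
  obtain ⟨hkp, hki⟩ := hk
  have hy : ∀ j : {j : ι // ¬ (j = p ∨ j = i)}, ∃ y, f y p = a ∧
      ∀ r, f y r = f u r ↔ r = i ∨ r = j.1 := by
    rintro ⟨j, hj⟩
    simp only [not_or] at hj
    exact e1 hT hc h2 u (Ne.symm hip) (Ne.symm hj.1) (Ne.symm hj.2) hu
  choose y hyp hY using hy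
  have hyc : ∀ j, (ag f (y j) u).card = 2 := by
    intro j
    refine card_of_iff ?_ (hY j)
    intro h
    exact j.2 (Or.inr h.symm)
  have hinj : Function.Injective (fun j => f (y j) k) := by
    intro j j' hjj
    have hjj' : f (y j) k = f (y j') k := hjj
    have h1 : R f (y j) (y j') := e2 h3 hT hc h2 he hu (hyp j) (hyp j') (hyc j) (hyc j')
    have h4 : y j = y j' := e3u (by rw [hyp, hyp]) h1 hip hkp (Ne.symm hki)
      (by rw [(hY j i).2 (Or.inl rfl), (hY j' i).2 (Or.inl rfl)]) hjj'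
    have h5 := (hY j j.1).2 (Or.inr rfl)
    rw [h4] at h5
    rcases (hY j' j.1).1 h5 with h | h
    · exact absurd (Or.inr h) j.2
    · exact Subtype.ext h
  have hcard : Fintype.card {j : ι // ¬ (j = p ∨ j = i)} = Fintype.card S := by
    rw [Fintype.card_subtype_compl, Fintype.card_subtype]
    have : (univ.filter fun r : ι => r = p ∨ r = i) = {p, i} := by
      ext i; simp
    rw [this, card_pair (Ne.symm hip)]
    omega
  obtain ⟨j, hj⟩ := ((Fintype.bijective_iff_injective_and_card _).2 ⟨hinj, hcard⟩).2 (f x k)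
  have hj' : f (y j) k = f x k := hj
  have h1 : R f z (y j) := e2 h3 hT hc h2 he hu hzp (hyp j) hz (hyc j)
  have h4 : R f x (y j) := R.trans h3 hT hc h2 he p (by rw [hxp, hzp]) (by rw [hyp, hzp]) hxz h1
  have h5 : x = y j := e3u (by rw [hxp, hyp]) h4 hip hkp (Ne.symm hki)
    (by rw [hi, (hY j i).2 (Or.inl rfl)]) hj'.symm
  rw [h5]
  exact hyc j

theorem k2 {w x y : W} (hyp : f y p = a) (hxp : f x p = a) (hxw : R f x w) (hyx : R f y x) :
    y = w ∨ (ag f y w).card = 0 ∨ (ag f y w).card = 2 := by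
  by_cases hw : f w p = a
  · rcases R.trans h3 hT hc h2 he p (by rw [hyp, hxp]) (by rw [hw, hxp]) hyx hxw with h | h
    · exact Or.inl h
    · exact Or.inr (Or.inr h)
  · right
    by_cases h0 : (ag f y w).card = 0
    · exact Or.inl h0
    · right
      rcases hxw with rfl | hxw
      · exact absurd hxp hw
      exact e4 h3 hT hc h2 he hw hyp hxp hxw hyx h0

omit h3 he in
theorem self_card (u : W) : (ag f u u).card ≠ 3 := by
  have : ag f u u = univ := by ext i; simp [mem_ag]
  rw [this, card_univ]; omega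

theorem key1 {u w x y : W} (hup : f u p = a) (hxp : f x p = a) (hyp : f y p = a) (hxu : R f x u)
    (hyw : R f y w) (hxy : R f x y) (h : (ag f u w).card = 3) : False := by
  have h1 : R f u y := R.trans h3 hT hc h2 he p (by rw [hup, hxp]) (by rw [hyp, hxp]) hxu.symm hxy
  rcases k2 h3 hT hc h2 he hup hyp hyw h1 with h4 | h4 | h4
  · subst h4; exact self_card hT hc h2 u h
  · omega
  · omega

theorem key {u w x y : W} (hxp : f x p = a) (hyp : f y p = a) (hxu : R f x u)
    (hyw : R f y w) (hxy : R f x y) (h : (ag f u w).card = 3) : False := by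
  classical
  by_cases hup : f u p = a
  · exact key1 h3 hT hc h2 he hup hxp hyp hxu hyw hxy h
  by_cases hwp : f w p = a
  · exact key1 h3 hT hc h2 he hwp hyp hxp hyw hxu hxy.symm (by rw [ag_comm]; exact h)
  have hq : ((ag f u w).erase p).Nonempty := by
    rw [← card_pos]
    have := pred_card_le_card_erase (a := p) (s := ag f u w)
    omega
  obtain ⟨q, hq⟩ := hq
  rw [mem_erase, mem_ag] at hq
  obtain ⟨hqp, hq⟩ := hq
  obtain ⟨k, hk⟩ := ex_pos hc h2 {p, q} (le_trans card_le_two (by norm_num))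
  simp only [mem_insert, mem_singleton, not_or] at hk
  obtain ⟨hkp, hkq⟩ := hk
  obtain ⟨z, hzp, hZ⟩ := e1 hT hc h2 u (Ne.symm hqp) (Ne.symm hkp) (Ne.symm hkq) hup
  have hz := card_of_iff (Ne.symm hkq) hZ
  have hxu' : (ag f x u).card = 2 := by
    rcases hxu with rfl | hxu
    · exact absurd hxp hup
    · exact hxu
  have h1 : R f z x := e2 h3 hT hc h2 he hup hzp hxp hz hxu'
  have h4 : R f z y := R.trans h3 hT hc h2 he p (by rw [hzp, hxp]) (by rw [hyp, hxp]) h1 hxy
  have hzq : f z q = f u q := (hZ q).2 (Or.inl rfl)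
  rcases k2 h3 hT hc h2 he hzp hyp hyw h4 with h5 | h5 | h5
  · exact hwp (by rw [← h5]; exact hzp)
  · rw [card_eq_zero] at h5
    have : q ∈ ag f z w := by rw [mem_ag, hzq, hq]
    rw [h5] at this
    simp at this
  · have h6 : R f u w := R.trans h3 hT hc h2 he q (by rw [hzq]) (by rw [hzq, hq])
      (R.symm (Or.inr hz)) (Or.inr h5)
    rcases h6 with h6 | h6
    · subst h6; exact self_card hT hc h2 u h
    · omega

/-- `6 ∣ n (n + 1)` -/
theorem six (hW : ∃ b : S, b ≠ a) (hp : ∃ i j k : ι, i ≠ p ∧ j ≠ p ∧ k ≠ p ∧ i ≠ j ∧ i ≠ k ∧ j ≠ k) :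
    6 ∣ Fintype.card S * (Fintype.card S + 1) := by
  classical
  obtain ⟨b, hb⟩ := hW
  obtain ⟨i, j, k, hi, hj, hk, hij, hik, hjk⟩ := hp
  obtain ⟨u, hu, -⟩ := ex4 hT (Ne.symm hi) (Ne.symm hj) (Ne.symm hk) hij hik hjk b b b b
  have hup : f u p ≠ a := by rw [hu]; exact hb
  obtain ⟨x₀, hx₀p, hX⟩ := e1 hT hc h2 u (Ne.symm hi) (Ne.symm hj) hij hup
  have hx₀ := card_of_iff hij hX
  obtain ⟨s, hs⟩ : ∃ s : S, s ≠ f x₀ k := by
    have : Nontrivial S := Fintype.one_lt_card_iff_nontrivial.1 (by omega)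
    exact exists_ne _
  obtain ⟨y, hyp, hyi, hyj, hyk⟩ := ex4 hT (Ne.symm hi) (Ne.symm hj) (Ne.symm hk) hij hik hjk
    a (f x₀ i) (f x₀ j) s
  have hyx : ¬ R f y x₀ := by
    intro h
    have h4 := e3u (by rw [hyp, hx₀p]) h hi hj hij hyi hyj
    subst h4
    exact hs hyk.symm
  -- the words of the class of `y` meet `u` in `0`, `1` or `3` positions
  have hne2 : ∀ x, f x p = a → R f x y → (ag f x u).card ≠ 2 := by
    intro x hxp hxy h
    have h4 : R f x x₀ := e2 h3 hT hc h2 he hup hxp hx₀p h hx₀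
    exact hyx (R.trans h3 hT hc h2 he p (by rw [hyp, hxp]) (by rw [hx₀p, hxp]) hxy.symm h4)
  have hle3 : ∀ x, f x p = a → (ag f x u).card ≤ 3 := by
    intro x hxp
    by_contra hlt
    have : x = u := un4 hT (by omega)
    rw [this] at hxp
    exact hup hxp
  -- the word of the class of `y` agreeing with `u` at two given positions
  have hg : ∀ A : Finset ι, ∃ x, A ∈ powersetCard 2 (univ.erase p) →
      (f x p = a ∧ R f x y ∧ ∀ r ∈ A, f x r = f u r) := by
    intro A
    by_cases hA : A ∈ powersetCard 2 (univ.erase p)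
    · rw [mem_powersetCard] at hA
      obtain ⟨l, m, hlm, rfl⟩ := card_eq_two.1 hA.2
      have hl : l ≠ p := by
        have := hA.1 (mem_insert_self l {m}); simpa using this
      have hm : m ≠ p := by
        have := hA.1 (mem_insert_of_mem (mem_singleton_self m)); simpa using this
      obtain ⟨x, hxp, hxy, hxl, hxm⟩ := e3 h3 hT hc h2 he hyp hl hm hlm (f u l) (f u m)
      refine ⟨x, fun _ => ⟨hxp, hxy, ?_⟩⟩
      intro r hr
      simp only [mem_insert, mem_singleton] at hr
      rcases hr with rfl | rfl <;> assumption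
    · exact ⟨y, fun h => absurd h hA⟩
  choose g hg using hg
  have hdiv : 3 ∣ (powersetCard 2 (univ.erase p : Finset ι)).card := by
    rw [card_eq_sum_card_fiberwise (f := g) (t := (univ : Finset W)) (fun A _ => by simp)]
    apply dvd_sum
    intro x _
    by_cases hx : f x p = a ∧ R f x y
    · have : (powersetCard 2 (univ.erase p : Finset ι)).filter (fun A => g A = x)
          = powersetCard 2 (ag f x u) := by
        ext A
        rw [mem_filter, mem_powersetCard, mem_powersetCard]
        constructor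
        · rintro ⟨hA, rfl⟩
          refine ⟨fun r hr => ?_, hA.2⟩
          rw [mem_ag]
          exact (hg A (mem_powersetCard.2 hA)).2.2 r hr
        · rintro ⟨hA, hA2⟩
          have hA1 : A ⊆ univ.erase p := by
            intro r hr
            rw [mem_erase]
            refine ⟨?_, mem_univ _⟩
            rintro rfl
            have := (mem_ag _ _ _).1 (hA hr)
            exact hup (by rw [← this, hx.1])
          refine ⟨⟨hA1, hA2⟩, ?_⟩
          obtain ⟨h4, h5, h6⟩ := hg A (mem_powersetCard.2 ⟨hA1, hA2⟩)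
          obtain ⟨l, m, hlm, rfl⟩ := card_eq_two.1 hA2
          have hl : l ≠ p := by
            have := hA1 (mem_insert_self l {m}); simpa using this
          have hm : m ≠ p := by
            have := hA1 (mem_insert_of_mem (mem_singleton_self m)); simpa using this
          have h7 : R f (g {l, m}) x := R.trans h3 hT hc h2 he p (by rw [h4, hyp])
            (by rw [hx.1, hyp]) h5 hx.2.symm
          refine e3u (by rw [h4, hx.1]) h7 hl hm hlm ?_ ?_
          · rw [h6 l (mem_insert_self _ _)]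
            exact ((mem_ag _ _ _).1 (hA (mem_insert_self _ _))).symm
          · rw [h6 m (mem_insert_of_mem (mem_singleton_self _))]
            exact ((mem_ag _ _ _).1 (hA (mem_insert_of_mem (mem_singleton_self _)))).symm
      rw [this, card_powersetCard]
      have h4 := hne2 x hx.1 hx.2
      have h5 := hle3 x hx.1
      generalize (ag f x u).card = c at h4 h5
      interval_cases c
      · decide
      · decide
      · exact absurd rfl h4
      · decide
    · have : (powersetCard 2 (univ.erase p : Finset ι)).filter (fun A => g A = x) = ∅ := by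
        rw [filter_eq_empty_iff]
        intro A hA hA'
        subst hA'
        exact hx ⟨(hg A hA).1, (hg A hA).2.1⟩
      rw [this]; simp
  rw [card_powersetCard, card_erase_of_mem (mem_univ _), card_univ, hc] at hdiv
  have h8 := Nat.add_one_mul_choose_eq (Fintype.card S) 1
  rw [Nat.choose_one_right] at h8
  obtain ⟨c, hc'⟩ := hdiv
  refine ⟨c, ?_⟩
  have h9 : Fintype.card S + 2 - 1 = Fintype.card S + 1 := by omega
  rw [h9] at hc'
  rw [mul_comm (Fintype.card S), h8, hc']
  ring

/-- the extension -/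
theorem ext (a : S) (hp : ∃ i j k : ι, i ≠ p ∧ j ≠ p ∧ k ≠ p ∧ i ≠ j ∧ i ≠ k ∧ j ≠ k) :
    ∃ e : W → S, ∀ u w, (ag f u w).card = 3 → e u ≠ e w := by
  classical
  obtain ⟨i, j, k, hi, hj, hk, hij, hik, hjk⟩ := hp
  have hX : ∀ u : W, ∃ x, f x p = a ∧ R f x u := by
    intro u
    by_cases hup : f u p = a
    · exact ⟨u, hup, Or.inl rfl⟩
    · obtain ⟨x, hxp, hX⟩ := e1 hT hc h2 u (Ne.symm hi) (Ne.symm hj) hij hup
      exact ⟨x, hxp, Or.inr (card_of_iff hij hX)⟩
  choose X hXp hXu using hX
  have hY : ∀ u : W, ∃ y, f y p = a ∧ R f y (X u) ∧ f y i = a ∧ f y j = a := fun u =>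
    e3 h3 hT hc h2 he (hXp u) hi hj hij a a
  choose Y hYp hYX hYi hYj using hY
  refine ⟨fun u => f (Y u) k, fun u w h heq => ?_⟩
  have heq' : f (Y u) k = f (Y w) k := heq
  have h4 : Y u = Y w := un4' hT (Ne.symm hi) (Ne.symm hj) (Ne.symm hk) hij hik hjk
    (by rw [hYp, hYp]) (by rw [hYi, hYi]) (by rw [hYj, hYj]) heq'
  have h5 : R f (X u) (X w) := by
    refine R.trans h3 hT hc h2 he p (v := Y u) (by rw [hXp, hYp]) (by rw [hXp, hYp])
      (hYX u).symm ?_
    rw [h4]; exact hYX w
  exact key h3 hT hc h2 he (hXp u) (hXp w) (hXu u) (hXu w) h5 h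

end point

/-- strength four of the extension -/
theorem T_ext (hT : T 4 f) (hc : Fintype.card ι = Fintype.card S + 2)
    (h2 : 2 ≤ Fintype.card S) (e : W → S) (hE : ∀ u w, (ag f u w).card = 3 → e u ≠ e w) :
    T 4 (fun w (o : Option ι) => o.elim (e w) (f w)) := by
  classical
  intro A hA v
  by_cases hn : none ∈ A
  · have hB : A.eraseNone.card = 3 := by
      rw [card_eraseNone_of_mem hn, hA]
    set B := A.eraseNone with hBdef
    have hmem : ∀ i, i ∈ B ↔ some i ∈ A := fun i => mem_eraseNone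
    obtain ⟨k, hk⟩ := ex_pos hc h2 B hB.le
    have hz : ∀ s : S, ∃ w, (∀ i ∈ B, f w i = v (some i)) ∧ f w k = s := by
      intro s
      obtain ⟨w, hw, -⟩ := hT (insert k B) (by rw [card_insert_of_notMem hk, hB])
        (fun i => if i = k then s else v (some i))
      refine ⟨w, fun i hi => ?_, ?_⟩
      · have := hw i (mem_insert_of_mem hi)
        have hik : i ≠ k := by rintro rfl; exact hk hi
        simpa [hik] using this
      · have := hw k (mem_insert_self _ _)
        simpa using this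
    choose z hz hzk using hz
    have hag : ∀ u w : W, u ≠ w → (∀ i ∈ B, f u i = v (some i)) → (∀ i ∈ B, f w i = v (some i)) →
        e u ≠ e w := by
      intro u w huw hu hw
      apply hE
      have h1 : B ⊆ ag f u w := by
        intro i hi
        rw [mem_ag, hu i hi, hw i hi]
      have h4 := card_le_card h1
      have h5 : ¬ 4 ≤ (ag f u w).card := fun h => huw (un4 hT h)
      omega
    have hinj : Function.Injective (fun s => e (z s)) := by
      intro s t hst
      by_contra hne
      have : z s ≠ z t := by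
        intro h
        exact hne (by rw [← hzk s, ← hzk t, h])
      exact hag _ _ this (hz s) (hz t) hst
    obtain ⟨s, hs⟩ := (Finite.injective_iff_surjective.1 hinj) (v none)
    have hs' : e (z s) = v none := hs
    refine ⟨z s, ?_, ?_⟩
    · rintro (_ | i) hi
      · exact hs'
      · exact hz s i ((hmem i).2 hi)
    · intro w hw
      have hw1 : ∀ i ∈ B, f w i = v (some i) := fun i hi => hw (some i) ((hmem i).1 hi)
      have hw2 : e w = v none := hw none hn
      by_contra hne
      exact hag _ _ hne hw1 (hz s) (by rw [hw2, hs'])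
  · have hB : A.eraseNone.card = 4 := by
      rw [card_eraseNone_of_not_mem hn, hA]
    obtain ⟨w, hw, hu⟩ := hT A.eraseNone hB (fun i => v (some i))
    refine ⟨w, ?_, ?_⟩
    · rintro (_ | i) hi
      · exact absurd hi hn
      · exact hw i (mem_eraseNone.2 hi)
    · intro z hz
      exact hu z fun i hi => hz (some i) (mem_eraseNone.1 hi)

/-- JOB L4 -/
theorem l4 (h3 : StL3) : StL4 := by
  classical
  intro ι S W _ _ _ f hT hc h2 he
  have : Nontrivial S := Fintype.one_lt_card_iff_nontrivial.1 (by omega)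
  obtain ⟨a, b, hab⟩ := exists_pair_ne S
  obtain ⟨p, -⟩ := ex_pos hc h2 ∅ (by simp)
  obtain ⟨i, hi⟩ := ex_pos hc h2 {p} (by simp)
  obtain ⟨j, hj⟩ := ex_pos hc h2 {p, i} (le_trans card_le_two (by norm_num))
  obtain ⟨k, hk⟩ := ex_pos hc h2 {p, i, j} card_le_three
  simp only [mem_insert, mem_singleton, not_or] at hi hj hk
  have hp : ∃ i j k : ι, i ≠ p ∧ j ≠ p ∧ k ≠ p ∧ i ≠ j ∧ i ≠ k ∧ j ≠ k :=
    ⟨i, j, k, hi, hj.1, hk.1, Ne.symm hj.2, Ne.symm hk.2.1, Ne.symm hk.2.2⟩
  refine ⟨six h3 hT hc h2 he (p := p) (a := a) ⟨b, hab.symm⟩ hp, ?_⟩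
  obtain ⟨e, hE⟩ := ext h3 hT hc h2 he (p := p) a hp
  exact ⟨e, T_ext hT hc h2 e hE⟩

end Pool.Agent.K7.H16.EVL4
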