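import Pool.Agent.K7.H84.GG.Stm

/-!
# Project GG, job S3
-/

set_option autoImplicit false

namespace Pool.Agent.K7.H16.GGS3

open Finset DC813 Pool.Agent.K7.H84.GG

variable {α : Type} [DecidableEq α] {r : Finset α → ℕ}

theorem cl_le (hr : IsRk r) {X Y : Finset α} {e : α} (hXY : X ⊆ Y) (h : r (insert e X) ≤ r X) :
    r (insert e Y) ≤ r Y := by
  have h1 := hr.submod (insert e X) Y
  have h2 : insert e X ∪ Y = insert e Y := by
    rw [Finset.insert_union, Finset.union_eq_right.2 hXY]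
  have h3 : X ⊆ insert e X ∩ Y := Finset.subset_inter (Finset.subset_insert _ _) hXY
  have h4 := hr.mono _ _ h3
  rw [h2] at h1
  omega

theorem r_union (hr : IsRk r) {A : Finset α} (S : Finset α)
    (h : ∀ e ∈ S, r (insert e A) ≤ r A) : r (A ∪ S) = r A := by
  induction S using Finset.induction_on with
  | empty => rw [Finset.union_empty]
  | insert a S ha ih =>
    have h1 := ih (fun e he => h e (Finset.mem_insert_of_mem he))
    rw [Finset.union_insert]
    have h2 := cl_le hr (Finset.subset_union_left : A ⊆ A ∪ S) (h a (Finset.mem_insert_self _ _))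
    have h3 := hr.mono _ _ (Finset.subset_insert a (A ∪ S))
    omega

theorem mem_cl {E A : Finset α} {e : α} : e ∈ cl r E A ↔ e ∈ E ∧ r (insert e A) = r A :=
  Finset.mem_filter

theorem mem_fl {E F : Finset α} : F ∈ fl r E ↔ F ⊆ E ∧ ∀ e ∈ E, e ∉ F → r F < r (insert e F) := by
  rw [fl, Finset.mem_filter, Finset.mem_powerset]

theorem subset_cl {E A : Finset α} (hA : A ⊆ E) : A ⊆ cl r E A := by
  intro e he
  rw [mem_cl]
  exact ⟨hA he, by rw [Finset.insert_eq_of_mem he]⟩

theorem r_cl (hr : IsRk r) {E A : Finset α} (hA : A ⊆ E) : r (cl r E A) = r A := by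
  have h1 := r_union hr (A := A) (cl r E A) (fun e he => (mem_cl.1 he).2.le)
  rwa [Finset.union_eq_right.2 (subset_cl hA)] at h1

theorem cl_sub (E A : Finset α) : cl r E A ⊆ E := Finset.filter_subset _ _

theorem cl_mem_fl (hr : IsRk r) {E A : Finset α} (hA : A ⊆ E) : cl r E A ∈ fl r E := by
  rw [mem_fl]
  refine ⟨cl_sub E A, fun e he hne => ?_⟩
  rw [r_cl hr hA]
  have h1 : r (insert e A) ≠ r A := fun h => hne (mem_cl.2 ⟨he, h⟩)
  have h2 := hr.mono _ _ (Finset.subset_insert e A)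
  have h3 := hr.mono _ _ (Finset.insert_subset_insert e (subset_cl (r := r) hA))
  omega

theorem fl_absorb (hr : IsRk r) {E F A : Finset α} {e : α} (hF : F ∈ fl r E) (hA : A ⊆ F)
    (he : e ∈ E) (h : r (insert e A) ≤ r A) : e ∈ F := by
  by_contra hne
  have h1 := (mem_fl.1 hF).2 e he hne
  have h2 := cl_le hr hA h
  omega

theorem cl_eq (hr : IsRk r) {E F A : Finset α} (hF : F ∈ fl r E) (hA : A ⊆ F) (h : r A = r F) :
    cl r E A = F := by
  apply Finset.Subset.antisymm
  · intro e he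
    exact fl_absorb hr hF hA (mem_cl.1 he).1 (mem_cl.1 he).2.le
  · intro e he
    rw [mem_cl]
    refine ⟨(mem_fl.1 hF).1 he, ?_⟩
    have h1 := hr.mono _ _ (Finset.insert_subset he hA)
    have h2 := hr.mono _ _ (Finset.subset_insert e A)
    omega

/-- flats inside a flat -/
theorem fl_of_fl (hr : IsRk r) {E K F : Finset α} (hK : K ∈ fl r E) :
    F ∈ fl r K ↔ F ∈ fl r E ∧ F ⊆ K := by
  rw [mem_fl, mem_fl]
  constructor
  · rintro ⟨h1, h2⟩
    refine ⟨⟨h1.trans (mem_fl.1 hK).1, fun e he hne => ?_⟩, h1⟩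
    by_cases heK : e ∈ K
    · exact h2 e heK hne
    · by_contra hcon
      exact heK (fl_absorb hr hK h1 he (not_lt.1 hcon))
  · rintro ⟨⟨h1, h2⟩, h3⟩
    exact ⟨h3, fun e he hne => h2 e ((mem_fl.1 hK).1 he) hne⟩

/-- the hyperplanes which contain `p` but not `L` -/
def KK (r : Finset α → ℕ) (E L : Finset α) (p : α) : Finset (Finset α) :=
  (fl r E).filter (fun K => r K + 1 = r E ∧ p ∈ K ∧ ¬ L ⊆ K)

theorem mem_KK {E L K : Finset α} {p : α} :
    K ∈ KK r E L p ↔ K ∈ fl r E ∧ r K + 1 = r E ∧ p ∈ K ∧ ¬ L ⊆ K := Finset.mem_filter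

theorem T1_KK {E L : Finset α} {p : α} (hc : Ctx r E L p) {G : Finset α} (hG : G ∈ T1 r E L) :
    cl r E (insert p G) ∈ KK r E L p ∧ G ⊆ cl r E (insert p G) ∧ p ∉ G ∧
      r (cl r E (insert p G)) = r G + 1 := by
  have hr := hc.hr
  rw [T1, Finset.mem_filter] at hG
  obtain ⟨hG, hG2, hG3⟩ := hG
  have hGE := (mem_fl.1 hG).1
  have hpG : p ∉ G := by
    intro hp
    have h1 := hr.submod G L
    have h2 : {p} ⊆ G ∩ L := by
      rw [Finset.singleton_subset_iff, Finset.mem_inter]; exact ⟨hp, hc.hpL⟩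
    have h3 := hr.mono _ _ h2
    have h4 := hc.lp p hc.hp
    have h5 := hc.hL2
    omega
  have hins : insert p G ⊆ E := Finset.insert_subset hc.hp hGE
  have h1 := (mem_fl.1 hG).2 p hc.hp hpG
  have h2 := hr.insert_le G p
  have h3 := r_cl hr hins
  have h4 : r (cl r E (insert p G)) = r G + 1 := by omega
  have h5 : G ⊆ cl r E (insert p G) := (Finset.subset_insert p G).trans (subset_cl hins)
  refine ⟨?_, h5, hpG, h4⟩
  rw [mem_KK]
  refine ⟨cl_mem_fl hr hins, by omega, subset_cl hins (Finset.mem_insert_self _ _), ?_⟩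
  intro hL
  have h6 := hr.mono _ _ (Finset.union_subset h5 hL)
  omega

theorem fiber {E L : Finset α} {p : α} (hc : Ctx r E L p) {K : Finset α} (hK : K ∈ KK r E L p) :
    (T1 r E L).filter (fun G => cl r E (insert p G) = K) = hy r K p := by
  have hr := hc.hr
  obtain ⟨hKf, hK1, hpK, hLK⟩ := mem_KK.1 hK
  ext G
  rw [Finset.mem_filter, hy, Finset.mem_filter]
  constructor
  · rintro ⟨hG, hGK⟩
    obtain ⟨-, h2, h3, h4⟩ := T1_KK hc hG
    rw [hGK] at h2 h4
    refine ⟨(fl_of_fl hr hKf).2 ⟨(Finset.mem_filter.1 hG).1, h2⟩, by omega, h3⟩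
  · rintro ⟨hG, hG1, hpG⟩
    have hGf := (fl_of_fl hr hKf).1 hG
    have hins : insert p G ⊆ K := Finset.insert_subset hpK hGf.2
    have h1 := (mem_fl.1 hG).2 p hpK hpG
    have h2 := hr.mono _ _ hins
    have h3 : r (insert p G) = r K := by omega
    refine ⟨?_, cl_eq hr hKf hins h3⟩
    rw [T1, Finset.mem_filter]
    refine ⟨hGf.1, by omega, ?_⟩
    obtain ⟨y, hyL, hyK⟩ := Finset.not_subset.1 hLK
    have hLE := (mem_fl.1 hc.hL).1
    have h4 : r (insert p G) < r (insert y (insert p G)) := by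
      by_contra hcon
      exact hyK (fl_absorb hr hKf hins (hLE hyL) (not_lt.1 hcon))
    have h5 : insert y (insert p G) ⊆ G ∪ L := by
      intro z hz
      rw [Finset.mem_insert, Finset.mem_insert] at hz
      rcases hz with rfl | rfl | hz
      · exact Finset.mem_union_right _ hyL
      · exact Finset.mem_union_right _ hc.hpL
      · exact Finset.mem_union_left _ hz
    have h6 := hr.mono _ _ h5
    have h7 := hr.mono _ _ (Finset.union_subset (mem_fl.1 hGf.1).1 hLE)
    omega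

/-- **S3** -/
theorem t (hW : StWeisC) : StS3 := by
  intro α _ r E L p f hc hIH hf
  have hr := hc.hr
  have hLE := (mem_fl.1 hc.hL).1
  -- the right side
  have hR : ∑ G ∈ T1 r E L, mu r G * f (G ∪ (E \ cl r E (insert p G)))
      = ∑ K ∈ KK r E L p, ∑ G ∈ hy r K p, mu r G * f (G ∪ (E \ K)) := by
    rw [← Finset.sum_fiberwise_of_maps_to (s := T1 r E L) (t := KK r E L p)
      (g := fun G => cl r E (insert p G)) (fun G hG => (T1_KK hc hG).1)]
    refine Finset.sum_congr rfl fun K hK => ?_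
    rw [fiber hc hK]
    refine Finset.sum_congr rfl fun G hG => ?_
    have h1 : G ∈ (T1 r E L).filter (fun G => cl r E (insert p G) = K) := by
      rw [fiber hc hK]; exact hG
    rw [(Finset.mem_filter.1 h1).2]
  -- the left side
  have hmc : ∀ F ∈ (fl r E).filter (fun F => p ∈ F ∧ ¬ L ⊆ F),
      mc r E F = ∑ K ∈ (KK r E L p).filter (fun K => F ⊆ K), mc r K F := by
    intro F hF
    obtain ⟨hFf, hpF, hLF⟩ := Finset.mem_filter.1 hF
    obtain ⟨y, hyL, hyF⟩ := Finset.not_subset.1 hLF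
    rw [← hW α r E F y hr hFf (hLE hyL) hyF]
    refine Finset.sum_congr ?_ fun _ _ => rfl
    ext K
    rw [Finset.mem_filter, Finset.mem_filter, mem_KK]
    have hpy : r {p, y} = 2 := by
      have h1 : 0 < r {p} := hc.lp p hc.hp
      have h2 : r {p} < r (insert y {p}) := by
        by_contra hcon
        exact hyF (fl_absorb hr hFf (Finset.singleton_subset_iff.2 hpF) (hLE hyL) (not_lt.1 hcon))
      have h3 : r {p, y} ≤ r L := hr.mono _ _ (by
        intro z hz
        rw [Finset.mem_insert, Finset.mem_singleton] at hz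
        rcases hz with rfl | rfl
        · exact hc.hpL
        · exact hyL)
      rw [Finset.pair_comm] at h3 ⊢
      have h4 := hc.hL2
      omega
    constructor
    · rintro ⟨h1, h2, h3, h4⟩
      exact ⟨⟨h1, h2, h3 hpF, fun h => h4 (h hyL)⟩, h3⟩
    · rintro ⟨⟨h1, h2, h3, h4⟩, h5⟩
      refine ⟨h1, h2, h5, fun hyK => h4 ?_⟩
      have h6 : ({p, y} : Finset α) ⊆ K := by
        intro z hz
        rw [Finset.mem_insert, Finset.mem_singleton] at hz
        rcases hz with rfl | rfl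
        · exact h3
        · exact hyK
      intro z hz
      refine fl_absorb hr h1 h6 (hLE hz) ?_
      have h7 : insert z ({p, y} : Finset α) ⊆ L := by
        intro w hw
        rw [Finset.mem_insert, Finset.mem_insert, Finset.mem_singleton] at hw
        rcases hw with rfl | rfl | rfl
        · exact hz
        · exact hc.hpL
        · exact hyL
      have h8 := hr.mono _ _ h7
      rw [hpy]
      have h9 := hc.hL2
      omega
  have hL : ∑ F ∈ (fl r E).filter (fun F => p ∈ F ∧ ¬ L ⊆ F), beta r F * mc r E F * f (E \ F)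
      = ∑ K ∈ KK r E L p, ∑ F ∈ (fl r K).filter (fun F => p ∈ F),
        beta r F * mc r K F * f (E \ F) := by
    have h1 : ∑ F ∈ (fl r E).filter (fun F => p ∈ F ∧ ¬ L ⊆ F), beta r F * mc r E F * f (E \ F)
        = ∑ F ∈ (fl r E).filter (fun F => p ∈ F ∧ ¬ L ⊆ F),
          ∑ K ∈ (KK r E L p).filter (fun K => F ⊆ K), beta r F * mc r K F * f (E \ F) := by
      refine Finset.sum_congr rfl fun F hF => ?_
      rw [hmc F hF, Finset.mul_sum, Finset.sum_mul]
    rw [h1]
    refine Finset.sum_comm' ?_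
    intro F K
    rw [Finset.mem_filter, Finset.mem_filter, Finset.mem_filter]
    constructor
    · rintro ⟨⟨h2, h3, h4⟩, h5, h6⟩
      exact ⟨⟨(fl_of_fl hr (mem_KK.1 h5).1).2 ⟨h2, h6⟩, h3⟩, h5⟩
    · rintro ⟨⟨h2, h3⟩, h5⟩
      have h6 := (fl_of_fl hr (mem_KK.1 h5).1).1 h2
      exact ⟨⟨h6.1, h3, fun h => (mem_KK.1 h5).2.2.2 (h.trans h6.2)⟩, h5, h6.2⟩
  rw [hR, hL]
  refine Finset.sum_le_sum fun K hK => ?_
  obtain ⟨hKf, hK1, hpK, hLK⟩ := mem_KK.1 hK
  have hKE := (mem_fl.1 hKf).1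
  have hsub : Sub (fun A => f (A ∪ (E \ K))) := by
    intro A B
    have h1 := hf (A ∪ (E \ K)) (B ∪ (E \ K))
    have h2 : (A ∪ E \ K) ∪ (B ∪ E \ K) = (A ∪ B) ∪ E \ K := by
      ext x; simp only [Finset.mem_union]; tauto
    have h3 : (A ∪ E \ K) ∩ (B ∪ E \ K) = (A ∩ B) ∪ E \ K := by
      rw [← Finset.inter_union_distrib_right]
    rw [h2, h3] at h1
    exact h1
  have h1 := hIH (r K) (by omega) r K p (fun A => f (A ∪ (E \ K))) hr rfl
    (fun x hx => hc.lp x (hKE hx)) hpK hsub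
  unfold GGs at h1
  refine le_trans (le_of_eq ?_) h1
  refine Finset.sum_congr rfl fun F hF => ?_
  have hFK := (mem_fl.1 (Finset.mem_filter.1 hF).1).1
  have h2 : K \ F ∪ E \ K = E \ F := by
    ext x
    simp only [Finset.mem_union, Finset.mem_sdiff]
    constructor
    · rintro (⟨h, h'⟩ | ⟨h, h'⟩)
      · exact ⟨hKE h, h'⟩
      · exact ⟨h, fun h'' => h' (hFK h'')⟩
    · rintro ⟨h, h'⟩
      by_cases hx : x ∈ K
      · exact Or.inl ⟨hx, h'⟩
      · exact Or.inr ⟨h, hx⟩
  show beta r F * mc r K F * f (E \ F) = beta r F * mc r K F * f (K \ F ∪ E \ K)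
  rw [h2]

end Pool.Agent.K7.H16.GGS3
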