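import Pool.Agent.K7.H42.TL.Stm

set_option autoImplicit false

open MeasureTheory Set

namespace Pool.Agent.K7.H16.TLDIFF

open Pool.Agent.K7.H42.TL

theorem rpow_lip {a b p : ℝ} (ha : 0 ≤ a) (hb : 0 ≤ b) (hb1 : b ≤ 1) (hp : 1 ≤ p) :
    b ^ p - p * |a - b| ≤ a ^ p := by
  rcases le_total b a with hab | hab
  · have h1 : b ^ p ≤ a ^ p := Real.rpow_le_rpow hb hab (by linarith)
    have h2 : 0 ≤ p * |a - b| := by positivity
    linarith
  · rcases hb.eq_or_lt with hb0 | hb0
    · have : a = 0 := le_antisymm (by rw [hb0]; exact hab) ha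
      rw [this, ← hb0]
      simp
    · have h1 : -1 ≤ (a - b) / b := by
        rw [le_div_iff₀ hb0]
        linarith
      have h2 := one_add_mul_self_le_rpow_one_add h1 hp
      have h3 : 1 + (a - b) / b = a / b := by
        field_simp
        ring
      rw [h3] at h2
      have h4 : a ^ p = b ^ p * (a / b) ^ p := by
        rw [← Real.mul_rpow hb (by positivity)]
        congr 1
        field_simp
      have h5 : 0 ≤ b ^ p := Real.rpow_nonneg hb p
      have h6 : b ^ p * (1 + p * ((a - b) / b)) ≤ a ^ p := by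
        rw [h4]
        exact mul_le_mul_of_nonneg_left h2 h5
      have h7 : b ^ p * (p * ((a - b) / b)) = -(p * (b - a) * b ^ (p - 1)) := by
        rw [Real.rpow_sub_one hb0.ne']
        field_simp
        ring
      have h8 : b ^ (p - 1) ≤ 1 := Real.rpow_le_one hb hb1 (by linarith)
      have h9 : p * (b - a) * b ^ (p - 1) ≤ p * (b - a) * 1 :=
        mul_le_mul_of_nonneg_left h8 (mul_nonneg (by linarith) (by linarith))
      have h10 : |a - b| = b - a := by
        rw [abs_sub_comm, abs_of_nonneg (by linarith)]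
      rw [h10]
      rw [mul_add, mul_one, h7] at h6
      linarith

theorem norm_le_half (t : UnitAddCircle) : ‖t‖ ≤ 1 / 2 := by
  have := AddCircle.norm_le_half_period (1 : ℝ) (x := t) one_ne_zero
  simpa using this

theorem norm_coe {x : ℝ} (hx : |x| ≤ 1 / 2) : ‖(x : UnitAddCircle)‖ = |x| := by
  rw [AddCircle.norm_coe_eq_abs_iff 1 one_ne_zero]
  simpa using hx

theorem exists_rep (t : UnitAddCircle) : ∃ s : ℝ, |s| = ‖t‖ ∧ (s : UnitAddCircle) = t := by
  induction t using QuotientAddGroup.induction_on with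
  | H x =>
    refine ⟨x - round x, ?_, ?_⟩
    · exact (UnitAddCircle.norm_eq (x := x)).symm
    · have h1 : ((x - round x : ℝ) : UnitAddCircle) = (x : UnitAddCircle) - ((round x : ℝ) : UnitAddCircle) :=
        AddCircle.coe_sub 1 _ _
      rw [h1]
      have h2 : ((round x : ℝ) : UnitAddCircle) = 0 := by
        rw [AddCircle.coe_eq_zero_iff]
        exact ⟨round x, by simp⟩
      rw [h2, sub_zero]

theorem core {p : ℝ} (hp : 1 ≤ p) {h : ℝ} (h0 : 0 < h) {t : UnitAddCircle} (ht : ‖t‖ ≤ 1 / 2 - h) :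
    0 ≤ ‖t + (h : UnitAddCircle)‖ ^ p + ‖t - (h : UnitAddCircle)‖ ^ p - 2 * ‖t‖ ^ p := by
  obtain ⟨s, hs, rfl⟩ := exists_rep t
  rw [← hs] at ht
  have e1 := abs_le.1 ht
  have h1 : ‖(s : UnitAddCircle) + (h : UnitAddCircle)‖ = |s + h| := by
    rw [← AddCircle.coe_add]
    refine norm_coe (abs_le.2 ⟨by linarith, by linarith⟩)
  have h2 : ‖(s : UnitAddCircle) - (h : UnitAddCircle)‖ = |s - h| := by
    rw [← AddCircle.coe_sub]
    refine norm_coe (abs_le.2 ⟨by linarith, by linarith⟩)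
  rw [h1, h2, ← hs]
  have h3 : (1 / 2 * |s + h| + 1 / 2 * |s - h|) ^ p ≤ 1 / 2 * |s + h| ^ p + 1 / 2 * |s - h| ^ p := by
    have hcv := convexOn_rpow hp
    have h6 := hcv.2 (show |s + h| ∈ Ici (0:ℝ) from mem_Ici.2 (abs_nonneg (s + h)))
      (show |s - h| ∈ Ici (0:ℝ) from mem_Ici.2 (abs_nonneg (s - h)))
      (show (0:ℝ) ≤ 1 / 2 by norm_num) (show (0:ℝ) ≤ 1 / 2 by norm_num)
      (show (1:ℝ) / 2 + 1 / 2 = 1 by norm_num)
    simpa only [smul_eq_mul] using h6
  have h4 : |s| ≤ 1 / 2 * |s + h| + 1 / 2 * |s - h| := by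
    have h5 : s = 1 / 2 * (s + h) + 1 / 2 * (s - h) := by ring
    calc |s| = |1 / 2 * (s + h) + 1 / 2 * (s - h)| := by rw [← h5]
      _ ≤ |1 / 2 * (s + h)| + |1 / 2 * (s - h)| := abs_add_le _ _
      _ = 1 / 2 * |s + h| + 1 / 2 * |s - h| := by
        rw [abs_mul, abs_mul, abs_of_nonneg (by norm_num : (0:ℝ) ≤ 1 / 2)]
  have h5 : |s| ^ p ≤ (1 / 2 * |s + h| + 1 / 2 * |s - h|) ^ p :=
    Real.rpow_le_rpow (abs_nonneg _) h4 (by linarith)
  linarith

theorem lower {p : ℝ} (hp : 1 ≤ p) {h : ℝ} (h0 : 0 < h) (h1 : h ≤ 1 / 2) (t : UnitAddCircle) :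
    -(2 * p * h) ≤
      ‖t + (h : UnitAddCircle)‖ ^ p + ‖t - (h : UnitAddCircle)‖ ^ p - 2 * ‖t‖ ^ p := by
  have hh : ‖(h : UnitAddCircle)‖ = h := by
    rw [norm_coe (by rw [abs_of_pos h0]; exact h1), abs_of_pos h0]
  have hn := norm_le_half t
  have e1 := rpow_lip (norm_nonneg (t + (h : UnitAddCircle))) (norm_nonneg t) (by linarith) hp
  have e2 := rpow_lip (norm_nonneg (t - (h : UnitAddCircle))) (norm_nonneg t) (by linarith) hp
  have e3 : |‖t + (h : UnitAddCircle)‖ - ‖t‖| ≤ h := by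
    have := abs_norm_sub_norm_le (t + (h : UnitAddCircle)) t
    rwa [add_sub_cancel_left, hh] at this
  have e4 : |‖t - (h : UnitAddCircle)‖ - ‖t‖| ≤ h := by
    have := abs_norm_sub_norm_le (t - (h : UnitAddCircle)) t
    rwa [sub_sub_cancel_left, norm_neg, hh] at this
  have e5 : p * |‖t + (h : UnitAddCircle)‖ - ‖t‖| ≤ p * h :=
    mul_le_mul_of_nonneg_left e3 (by linarith)
  have e6 : p * |‖t - (h : UnitAddCircle)‖ - ‖t‖| ≤ p * h :=
    mul_le_mul_of_nonneg_left e4 (by linarith)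
  linarith

theorem vol_eq : (volume : Measure UnitAddCircle) = AddCircle.haarAddCircle := by
  have := AddCircle.volume_eq_smul_haarAddCircle (T := (1 : ℝ))
  rw [ENNReal.ofReal_one, one_smul] at this
  exact this

theorem meas {h : ℝ} (h0 : 0 < h) (h1 : h ≤ 1 / 2) :
    (AddCircle.haarAddCircle : Measure UnitAddCircle).real {t | 1 / 2 - h < ‖t‖} = 2 * h := by
  have e1 : {t : UnitAddCircle | 1 / 2 - h < ‖t‖} = (Metric.closedBall 0 (1 / 2 - h))ᶜ := by
    ext t
    simp [Metric.mem_closedBall, dist_zero_right]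
  rw [e1, probReal_compl_eq_one_sub measurableSet_closedBall]
  have e2 : (AddCircle.haarAddCircle : Measure UnitAddCircle) (Metric.closedBall 0 (1 / 2 - h)) =
      ENNReal.ofReal (1 - 2 * h) := by
    rw [← vol_eq, AddCircle.volume_closedBall]
    congr 1
    rw [min_eq_right (by linarith)]
    ring
  rw [Measure.real, e2, ENNReal.toReal_ofReal (by linarith)]
  ring

theorem t : StDiff := by
  intro p hp h h0 h1
  have hc : Continuous fun t : UnitAddCircle => ‖t‖ ^ p :=
    continuous_norm.rpow_const (fun _ => Or.inr (by linarith))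
  have hc1 : Continuous fun t : UnitAddCircle => ‖t + (h : UnitAddCircle)‖ ^ p :=
    hc.comp (continuous_id.add continuous_const)
  have hc2 : Continuous fun t : UnitAddCircle => ‖t - (h : UnitAddCircle)‖ ^ p :=
    hc.comp (continuous_id.sub continuous_const)
  have hi : ∀ f : UnitAddCircle → ℝ, Continuous f →
      Integrable f (AddCircle.haarAddCircle : Measure UnitAddCircle) := fun f hf =>
    hf.integrable_of_hasCompactSupport (HasCompactSupport.of_compactSpace f)
  obtain ⟨g, hg⟩ : ∃ g : UnitAddCircle → ℝ, g = fun t =>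
      ‖t + (h : UnitAddCircle)‖ ^ p + ‖t - (h : UnitAddCircle)‖ ^ p - 2 * ‖t‖ ^ p := ⟨_, rfl⟩
  have hgc : Continuous g := by
    rw [hg]
    exact (hc1.add hc2).sub (continuous_const.mul hc)
  have hg0 : ∫ t, g t ∂(AddCircle.haarAddCircle : Measure UnitAddCircle) = 0 := by
    rw [hg]
    beta_reduce
    have e0 : ∫ t : UnitAddCircle, (‖t + (h : UnitAddCircle)‖ ^ p + ‖t - (h : UnitAddCircle)‖ ^ p -
        2 * ‖t‖ ^ p) ∂AddCircle.haarAddCircle =
        (∫ t : UnitAddCircle, ‖t + (h : UnitAddCircle)‖ ^ p ∂AddCircle.haarAddCircle) +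
        (∫ t : UnitAddCircle, ‖t - (h : UnitAddCircle)‖ ^ p ∂AddCircle.haarAddCircle) -
        2 * ∫ t : UnitAddCircle, ‖t‖ ^ p ∂AddCircle.haarAddCircle := by
      rw [← integral_const_mul, ← integral_add (hi _ hc1) (hi _ hc2)]
      exact integral_sub ((hi _ hc1).add (hi _ hc2)) ((hi _ hc).const_mul 2)
    refine e0.trans ?_
    have e1 : ∫ t : UnitAddCircle, ‖t + (h : UnitAddCircle)‖ ^ p ∂AddCircle.haarAddCircle =
        ∫ t : UnitAddCircle, ‖t‖ ^ p ∂AddCircle.haarAddCircle :=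
      integral_add_right_eq_self (fun t : UnitAddCircle => ‖t‖ ^ p) (h : UnitAddCircle)
    have e2 : ∫ t : UnitAddCircle, ‖t - (h : UnitAddCircle)‖ ^ p ∂AddCircle.haarAddCircle =
        ∫ t : UnitAddCircle, ‖t‖ ^ p ∂AddCircle.haarAddCircle :=
      integral_sub_right_eq_self (fun t : UnitAddCircle => ‖t‖ ^ p) (h : UnitAddCircle)
    rw [e1, e2]
    ring
  have hS : MeasurableSet {t : UnitAddCircle | 1 / 2 - h < ‖t‖} :=
    measurableSet_lt measurable_const continuous_norm.measurable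
  have hind : Integrable ({t : UnitAddCircle | 1 / 2 - h < ‖t‖}.indicator fun _ => 4 * p * h)
      (AddCircle.haarAddCircle : Measure UnitAddCircle) :=
    (integrable_const _).indicator hS
  have hle : ∀ t, |g t| ≤ g t +
      ({t : UnitAddCircle | 1 / 2 - h < ‖t‖}.indicator fun _ => 4 * p * h) t := by
    intro t
    by_cases ht : 1 / 2 - h < ‖t‖
    · rw [indicator_of_mem (show t ∈ {t : UnitAddCircle | 1 / 2 - h < ‖t‖} from ht)]
      have h3 := lower hp h0 h1 t
      have h4 : g t = ‖t + (h : UnitAddCircle)‖ ^ p + ‖t - (h : UnitAddCircle)‖ ^ p -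
          2 * ‖t‖ ^ p := by rw [hg]
      rw [← h4] at h3
      have h5 : 0 ≤ p * h := mul_nonneg (by linarith) h0.le
      rw [abs_le]
      constructor <;> nlinarith
    · rw [indicator_of_notMem (show t ∉ {t : UnitAddCircle | 1 / 2 - h < ‖t‖} from ht), add_zero]
      have h3 := core hp h0 (not_lt.1 ht)
      have h4 : g t = ‖t + (h : UnitAddCircle)‖ ^ p + ‖t - (h : UnitAddCircle)‖ ^ p -
          2 * ‖t‖ ^ p := by rw [hg]
      rw [← h4] at h3
      exact (abs_of_nonneg h3).le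
  have hint : ∫ t, |g t| ∂(AddCircle.haarAddCircle : Measure UnitAddCircle) ≤
      ∫ t, (g t + ({t : UnitAddCircle | 1 / 2 - h < ‖t‖}.indicator fun _ => 4 * p * h) t)
        ∂(AddCircle.haarAddCircle : Measure UnitAddCircle) :=
    integral_mono (hi _ hgc.abs) ((hi _ hgc).add hind) hle
  rw [integral_add (hi _ hgc) hind, hg0, zero_add, integral_indicator_const _ hS, meas h0 h1] at hint
  rw [hg] at hint
  refine hint.trans (le_of_eq ?_)
  rw [smul_eq_mul]
  ring

end Pool.Agent.K7.H16.TLDIFF
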